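import Pool.Agent.Helper1.Stab.GF

/-! Auxiliary facts for the levels of the compact model: `S^v ∧ X₊` is a Hausdorff space, and the
part over a compact space is a one-point compactification. -/

open CategoryTheory Topology Filter Set Opposite

noncomputable section

namespace Pool.Agent.Helper1.Stab

/-! ### The map `squash` -/

theorem squash_strictMono : StrictMono squash := by
  intro s t hst
  apply Subtype.coe_lt_coe.1
  change (1 + s / (1 + |s|)) / 2 < (1 + t / (1 + |t|)) / 2
  have hs : 0 < 1 + |s| := by positivity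
  have ht : 0 < 1 + |t| := by positivity
  have h1 : s / (1 + |s|) < t / (1 + |t|) := by
    rw [div_lt_div_iff₀ hs ht]
    rcases le_total 0 s with h | h <;> rcases le_total 0 t with h' | h'
    · rw [abs_of_nonneg h, abs_of_nonneg h']; nlinarith
    · rw [abs_of_nonneg h, abs_of_nonpos h']; nlinarith
    · rw [abs_of_nonpos h, abs_of_nonneg h']; nlinarith
    · rw [abs_of_nonpos h, abs_of_nonpos h']; nlinarith
  linarith

theorem squash_pos (t : ℝ) : (0 : unitInterval) < squash t := by
  apply Subtype.coe_lt_coe.1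
  change (0 : ℝ) < (1 + t / (1 + |t|)) / 2
  have ht : 0 < 1 + |t| := by positivity
  have h1 : |t / (1 + |t|)| < 1 := by
    rw [abs_div, abs_of_pos ht, div_lt_one ht]; linarith
  have := (abs_lt.1 h1).1
  linarith

theorem squash_lt_one (t : ℝ) : squash t < (1 : unitInterval) := by
  apply Subtype.coe_lt_coe.1
  change (1 + t / (1 + |t|)) / 2 < (1 : ℝ)
  have ht : 0 < 1 + |t| := by positivity
  have h1 : |t / (1 + |t|)| < 1 := by
    rw [abs_div, abs_of_pos ht, div_lt_one ht]; linarith
  have := (abs_lt.1 h1).2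
  linarith

theorem exists_squash {u : unitInterval} (h0 : u ≠ 0) (h1 : u ≠ 1) : ∃ t, squash t = u := by
  have h0' : 0 < (u : ℝ) := lt_of_le_of_ne u.2.1 (fun h => h0 (Subtype.ext h.symm))
  have h1' : (u : ℝ) < 1 := lt_of_le_of_ne u.2.2 (fun h => h1 (Subtype.ext h))
  set z : ℝ := 2 * u - 1 with hz
  have hz1 : |z| < 1 := by
    rw [abs_lt]
    constructor <;> linarith
  have hz2 : 0 < 1 - |z| := by linarith
  refine ⟨z / (1 - |z|), Subtype.ext ?_⟩
  change (1 + (z / (1 - |z|)) / (1 + |z / (1 - |z|)|)) / 2 = (u : ℝ)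
  have h2 : |z / (1 - |z|)| = |z| / (1 - |z|) := by
    rw [abs_div, abs_of_pos hz2]
  have h3 : (z / (1 - |z|)) / (1 + |z / (1 - |z|)|) = z := by
    rw [h2]
    field_simp
    ring
  rw [h3, hz]
  ring

theorem range_squash : range squash = Ioo (0 : unitInterval) 1 := by
  ext u
  constructor
  · rintro ⟨t, rfl⟩
    exact ⟨squash_pos t, squash_lt_one t⟩
  · rintro ⟨h0, h1⟩
    exact exists_squash h0.ne' h1.ne

theorem isEmbedding_squash : IsEmbedding squash :=
  squash_strictMono.isEmbedding_of_ordConnected (by rw [range_squash]; exact ordConnected_Ioo)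

/-! ### `S^r ∧ X₊` is a Hausdorff space -/

/-- a function on the cube which vanishes exactly on the boundary -/
def cubeW {r : ℕ} (u : Fin r → unitInterval) : ℝ := ∏ i, ((u i : ℝ) * (1 - u i))

theorem continuous_cubeW {r : ℕ} : Continuous (cubeW (r := r)) := by
  unfold cubeW
  refine continuous_finsetProd _ fun i _ => ?_
  have h : Continuous fun u : Fin r → unitInterval => ((u i : unitInterval) : ℝ) :=
    continuous_subtype_val.comp (continuous_apply i)
  exact h.mul (continuous_const.sub h)

theorem cubeW_bd {r : ℕ} {u : Fin r → unitInterval} (h : u ∈ Cube.boundary (Fin r)) :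
    cubeW u = 0 := by
  obtain ⟨i, hi⟩ := h
  apply Finset.prod_eq_zero (Finset.mem_univ i)
  rcases hi with h | h
  · rw [h]; simp
  · rw [h]; simp

theorem cubeW_pos {r : ℕ} {u : Fin r → unitInterval} (h : u ∉ Cube.boundary (Fin r)) :
    0 < cubeW u := by
  apply Finset.prod_pos
  intro i _
  have h0 : u i ≠ 0 := fun h' => h ⟨i, Or.inl h'⟩
  have h1 : u i ≠ 1 := fun h' => h ⟨i, Or.inr h'⟩
  have h0' : 0 < (u i : ℝ) := lt_of_le_of_ne (u i).2.1 (fun h => h0 (Subtype.ext h.symm))
  have h1' : (u i : ℝ) < 1 := lt_of_le_of_ne (u i).2.2 (fun h => h1 (Subtype.ext h))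
  exact mul_pos h0' (by linarith)

/-- a real function on the cube times `X` which vanishes on the boundary, on the quotient -/
def Sph.fn {r : ℕ} {X : Type} [TopologicalSpace X] (g : (Fin r → unitInterval) → ℝ)
    (h : ∀ u ∈ Cube.boundary (Fin r), g u = 0) : Sph r X → ℝ :=
  Quot.lift (Sum.elim (fun _ => 0) (fun y => g y.1)) (by
    rintro _ _ ⟨u, x, hu⟩
    exact (h u hu).symm)

theorem Sph.continuous_fn {r : ℕ} {X : Type} [TopologicalSpace X]
    (g : (Fin r → unitInterval) → ℝ) (h : ∀ u ∈ Cube.boundary (Fin r), g u = 0)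
    (hg : Continuous g) : Continuous (Sph.fn (X := X) g h) :=
  continuous_quot_lift _ (continuous_const.sumElim (hg.comp continuous_fst))

/-- the points `[u, x]` with `u` in the interior and `x ∈ A` -/
def Sph.nb {r : ℕ} {X : Type} [TopologicalSpace X] (A : Set X) : Sph r X → Prop :=
  Quot.lift (Sum.elim (fun _ => False) (fun y => 0 < cubeW y.1 ∧ y.2 ∈ A)) (by
    rintro _ _ ⟨u, x, hu⟩
    refine propext ⟨fun h => h.elim, ?_⟩
    rintro ⟨h, -⟩
    rw [cubeW_bd hu] at h
    exact lt_irrefl _ h)

theorem Sph.isOpen_nb {r : ℕ} {X : Type} [TopologicalSpace X] {A : Set X} (hA : IsOpen A) :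
    IsOpen {y : Sph r X | Sph.nb A y} := by
  refine (isQuotientMap_quot_mk (r := SphRel r X)).isOpen_preimage.1 ?_
  rw [isOpen_sum_iff]
  constructor
  · exact isOpen_empty
  · exact (isOpen_lt continuous_const (continuous_cubeW.comp continuous_fst)).inter
      (hA.preimage continuous_snd)

theorem Sph.t2 (r : ℕ) (X : Type) [TopologicalSpace X] [T2Space X] : T2Space (Sph r X) := by
  refine ⟨fun p q hpq => ?_⟩
  by_cases hw : Sph.fn (X := X) cubeW (fun u hu => cubeW_bd hu) p =
      Sph.fn (X := X) cubeW (fun u hu => cubeW_bd hu) q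
  swap
  · exact separated_by_continuous (Sph.continuous_fn _ _ continuous_cubeW) hw
  induction p using Quot.ind with | _ p => ?_
  induction q using Quot.ind with | _ q => ?_
  rcases p with p | ⟨u, x⟩
  · rcases q with q | ⟨u', x'⟩
    · exact absurd rfl hpq
    · exfalso
      change (0 : ℝ) = cubeW u' at hw
      apply hpq
      by_cases hu : u' ∈ Cube.boundary (Fin r)
      · exact Quot.sound (.bd u' x' hu)
      · exact absurd hw (cubeW_pos hu).ne
  · rcases q with q | ⟨u', x'⟩
    · exfalso
      change cubeW u = (0 : ℝ) at hw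
      apply hpq
      by_cases hu : u ∈ Cube.boundary (Fin r)
      · exact (Quot.sound (.bd u x hu)).symm
      · exact absurd hw (cubeW_pos hu).ne'
    · change cubeW u = cubeW u' at hw
      by_cases hu : u ∈ Cube.boundary (Fin r)
      · exfalso
        apply hpq
        have hu' : u' ∈ Cube.boundary (Fin r) := by
          by_contra h
          rw [cubeW_bd hu] at hw
          exact (cubeW_pos h).ne hw
        exact (Quot.sound (.bd u x hu)).symm.trans (Quot.sound (.bd u' x' hu'))
      · have hu' : u' ∉ Cube.boundary (Fin r) := by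
          intro h
          rw [cubeW_bd h] at hw
          exact (cubeW_pos hu).ne' hw
        by_cases he : u = u'
        · subst he
          have hx : x ≠ x' := by
            rintro rfl
            exact hpq rfl
          obtain ⟨A, A', hA, hA', hxA, hxA', hd⟩ := t2_separation hx
          refine ⟨{y | Sph.nb A y}, {y | Sph.nb A' y}, Sph.isOpen_nb hA, Sph.isOpen_nb hA',
            ⟨cubeW_pos hu, hxA⟩, ⟨cubeW_pos hu, hxA'⟩, ?_⟩
          rw [Set.disjoint_left]
          intro y
          induction y using Quot.ind with | _ y => ?_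
          rcases y with y | ⟨w, z⟩
          · exact fun h => h.elim
          · rintro ⟨-, h1⟩ ⟨-, h2⟩
            exact (Set.disjoint_left.1 hd) h1 h2
        · obtain ⟨i, hi⟩ : ∃ i, u i ≠ u' i := by
            by_contra hcon
            push Not at hcon
            exact he (funext hcon)
          have hc : Continuous fun w : Fin r → unitInterval => cubeW w * ((w i : unitInterval) : ℝ) :=
            continuous_cubeW.mul (continuous_subtype_val.comp (continuous_apply i))
          refine separated_by_continuous (Sph.continuous_fn (X := X)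
            (fun w => cubeW w * ((w i : unitInterval) : ℝ))
            (fun w hw => by rw [cubeW_bd hw, zero_mul]) hc) ?_
          change cubeW u * ((u i : unitInterval) : ℝ) ≠ cubeW u' * ((u' i : unitInterval) : ℝ)
          rw [← hw]
          intro h
          apply hi
          exact Subtype.ext (mul_left_cancel₀ (cubeW_pos hu).ne' h)

open Classical in
/-- the data of an interior point -/
def Sph.dat {r : ℕ} {X : Type} [TopologicalSpace X] :
    Sph r X → Option ((Fin r → unitInterval) × X) :=
  Quot.lift (Sum.elim (fun _ => none)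
    (fun y => if y.1 ∈ Cube.boundary (Fin r) then none else some y)) (by
    rintro _ _ ⟨u, x, hu⟩
    exact (if_pos hu).symm)

theorem Sph.dat_mk {r : ℕ} {X : Type} [TopologicalSpace X] {u : Fin r → unitInterval} {x : X}
    (hu : u ∉ Cube.boundary (Fin r)) : Sph.dat (Sph.mk u x) = some (u, x) := if_neg hu

/-- The part of `S^v ∧ X₊` over a compact space `L` is the one-point compactification of
`ℝ^v × L`. -/
theorem exists_homeo_onePoint {X : Type} [TopologicalSpace X] [T2Space X] {v : ℕ} (L : LC)
    [CompactSpace L] (j : L → X) (hj : Continuous j) (hji : Function.Injective j)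
    (S : Set (Sph v X)) (hpt : (Sph v X).pt ∈ S) (hS1 : ∀ u z, (Sph.mk u (j z) : Sph v X) ∈ S)
    (hS2 : ∀ y ∈ S, y = (Sph v X).pt ∨ ∃ (u : Fin v → unitInterval) (z : L),
      y = (Sph.mk u (j z) : Sph v X)) :
    ∃ E : OnePoint ((LC.rpow (Fin v)).prod L) ≃ₜ S, E OnePoint.infty = ⟨(Sph v X).pt, hpt⟩ ∧
      ∀ x : (LC.rpow (Fin v)).prod L, E (x : OnePoint ((LC.rpow (Fin v)).prod L)) =
        ⟨(Sph.mk (fun i => squash (x.1 i)) (j x.2) : Sph v X), hS1 _ _⟩ := by
  let Y : PT := ⟨S, ⟨(Sph v X).pt, hpt⟩⟩
  let ι : ((LC.rpow (Fin v)).prod L : LC) → (Fin v → unitInterval) × L :=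
    Prod.map (fun x i => squash (x i)) id
  have hι : IsEmbedding ι :=
    (IsEmbedding.piMap fun _ : Fin v => isEmbedding_squash).prodMap IsEmbedding.id
  let F : (Fin v → unitInterval) × L → Y := fun p => ⟨(Sph.mk p.1 (j p.2) : Sph v X), hS1 _ _⟩
  have hF : Continuous F := by
    refine Continuous.subtype_mk ?_ _
    exact continuous_quot_mk.comp (continuous_inr.comp
      (continuous_fst.prodMk (hj.comp continuous_snd)))
  have hnb : ∀ u : Fin v → unitInterval, u ∉ Cube.boundary (Fin v) →
      ∃ x : Fin v → ℝ, (fun i => squash (x i)) = u := by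
    intro u hu
    have h1 : ∀ i, ∃ t, squash t = u i := fun i =>
      exists_squash (fun h' => hu ⟨i, Or.inl h'⟩) (fun h' => hu ⟨i, Or.inr h'⟩)
    choose x hx using h1
    exact ⟨x, funext hx⟩
  have hin : ∀ x : Fin v → ℝ, (fun i => squash (x i)) ∉ Cube.boundary (Fin v) := by
    rintro x ⟨i, h | h⟩
    · exact (squash_pos (x i)).ne' h
    · exact (squash_lt_one (x i)).ne h
  have h : ∀ p, p ∉ range ι → F p = Y.pt := by
    rintro ⟨u, z⟩ hp
    apply Subtype.ext
    change (Sph.mk u (j z) : Sph v X) = (Sph v X).pt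
    apply mk_eq_pt_of_boundary
    by_contra hu
    obtain ⟨x, hx⟩ := hnb u hu
    apply hp
    exact ⟨(x, z), Prod.ext hx rfl⟩
  let f : PMap ((LC.rpow (Fin v)).prod L) Y := PMap.ofEmb ι hι F hF h
  have hf : ∀ x : (LC.rpow (Fin v)).prod L, f.plus (x : OnePoint ((LC.rpow (Fin v)).prod L)) =
      ⟨(Sph.mk (fun i => squash (x.1 i)) (j x.2) : Sph v X), hS1 _ _⟩ := fun _ => rfl
  have hne : ∀ x : (LC.rpow (Fin v)).prod L,
      f.plus (x : OnePoint ((LC.rpow (Fin v)).prod L)) ≠ Y.pt := by
    intro x hx
    rw [hf x] at hx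
    have h1 : (Sph.mk (fun i => squash (x.1 i)) (j x.2) : Sph v X) = (Sph v X).pt :=
      congrArg Subtype.val hx
    have h2 := congrArg Sph.dat h1
    rw [Sph.dat_mk (hin x.1)] at h2
    exact Option.some_ne_none _ h2
  have hbij : Function.Bijective f.plus := by
    constructor
    · intro a b hab
      rcases a with _ | a
      · rcases b with _ | b
        · rfl
        · exact absurd hab.symm (hne b)
      · rcases b with _ | b
        · exact absurd hab (hne a)
        · have h1 : (Sph.mk (fun i => squash (a.1 i)) (j a.2) : Sph v X) =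
              Sph.mk (fun i => squash (b.1 i)) (j b.2) := congrArg Subtype.val hab
          have h2 := congrArg Sph.dat h1
          rw [Sph.dat_mk (hin a.1), Sph.dat_mk (hin b.1)] at h2
          have h3 := Option.some.inj h2
          have h4 := congrArg Prod.fst h3
          have h5 := hji (congrArg Prod.snd h3)
          have h6 : a = b := Prod.ext (funext fun i =>
            squash_strictMono.injective (congrFun h4 i)) h5
          rw [h6]
    · rintro ⟨y, hy⟩
      by_cases hyp : y = (Sph v X).pt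
      · refine ⟨OnePoint.infty, ?_⟩
        exact Subtype.ext hyp.symm
      · rcases hS2 y hy with h1 | ⟨u, z, h1⟩
        · exact absurd h1 hyp
        · have hu : u ∉ Cube.boundary (Fin v) := by
            intro hu
            apply hyp
            rw [h1]
            exact mk_eq_pt_of_boundary _ _ hu
          obtain ⟨x, hx⟩ := hnb u hu
          refine ⟨((x, z) : (LC.rpow (Fin v)).prod L), Subtype.ext ?_⟩
          change (Sph.mk (fun i => squash (x i)) (j z) : Sph v X) = y
          rw [hx, h1]
  have : T2Space (Sph v X) := Sph.t2 v X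
  have : T2Space Y := inferInstanceAs (T2Space S)
  let e : OnePoint ((LC.rpow (Fin v)).prod L) ≃ Y := Equiv.ofBijective f.plus hbij
  have he : Continuous e := f.continuous_plus
  exact ⟨he.homeoOfEquivCompactToT2, rfl, fun x => rfl⟩

/-! ### Products of test spaces with `ℝ^v` -/

/-- a homeomorphism as a morphism -/
theorem ofHomeo_comp_symm {K L : LC} (e : K ≃ₜ L) :
    (PMap.ofHomeo e.symm).comp (PMap.ofHomeo e) = PMap.id K := by
  ext k
  change ((e.symm (e k) : K) : OnePoint K) = (k : OnePoint K)
  rw [Homeomorph.symm_apply_apply]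

theorem IsTest.rprod {K : LC} (h : IsTest K) (v : ℕ) : IsTest ((LC.rpow (Fin v)).prod K) := by
  obtain ⟨a, N, Q, hQ, hc, i, r, hir⟩ := h
  let e : (LC.rpow (Fin v)).prod ((LC.rpow (Fin a)).prod ((LC.rpow (Fin N)).closed Q hQ)) ≃ₜ
      (LC.rpow (Fin (v + a))).prod ((LC.rpow (Fin N)).closed Q hQ) :=
    (Homeomorph.prodAssoc (Fin v → ℝ) (Fin a → ℝ) ((LC.rpow (Fin N)).closed Q hQ)).symm.trans
      ((Fin.appendHomeomorph v a).prodCongr (Homeomorph.refl _))
  obtain ⟨E1, E2, hE⟩ : ∃ (E1 : (LC.rpow (Fin v)).prod ((LC.rpow (Fin a)).prod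
      ((LC.rpow (Fin N)).closed Q hQ)) ⟶
      (LC.rpow (Fin (v + a))).prod ((LC.rpow (Fin N)).closed Q hQ))
      (E2 : (LC.rpow (Fin (v + a))).prod ((LC.rpow (Fin N)).closed Q hQ) ⟶
      (LC.rpow (Fin v)).prod ((LC.rpow (Fin a)).prod ((LC.rpow (Fin N)).closed Q hQ))),
      E1 ≫ E2 = 𝟙 _ := by
    refine ⟨(PMap.ofHomeo e).cls, (PMap.ofHomeo e.symm).cls, ?_⟩
    change ((PMap.ofHomeo e.symm).comp (PMap.ofHomeo e)).cls = (PMap.id _).cls
    rw [ofHomeo_comp_symm]
  obtain ⟨a1, b1, hab⟩ : ∃ (a1 : (LC.rpow (Fin v)).prod K ⟶ (LC.rpow (Fin v)).prod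
      ((LC.rpow (Fin a)).prod ((LC.rpow (Fin N)).closed Q hQ)))
      (b1 : (LC.rpow (Fin v)).prod ((LC.rpow (Fin a)).prod ((LC.rpow (Fin N)).closed Q hQ)) ⟶
        (LC.rpow (Fin v)).prod K), a1 ≫ b1 = 𝟙 _ := by
    refine ⟨(LC.prodL (LC.rpow (Fin v))).map i, (LC.prodL (LC.rpow (Fin v))).map r, ?_⟩
    have h1 := (LC.prodL (LC.rpow (Fin v))).map_comp i r
    rw [hir] at h1
    exact h1.symm.trans ((LC.prodL (LC.rpow (Fin v))).map_id K)
  refine ⟨v + a, N, Q, hQ, hc, a1 ≫ E1, E2 ≫ b1, ?_⟩
  rw [Category.assoc, ← Category.assoc E1, hE, Category.id_comp]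
  exact hab

end Pool.Agent.Helper1.Stab
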